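import Pool.Agent.V1141.FD.Exist

/-!
# The Tate conjecture for all products of given varieties over finite fields is a finite problem

Let `X 1, …, X r` be arbitrary smooth projective varieties over a finite field (arbitrary
dimensions, cohomology, Newton polygons; nothing is assumed about them but the theorem of Deligne
about the absolute values of the eigenvalues of Frobenius, `HasWeights`).

**Theorem.** There is a number `N` with the following property. Let `Z` be any product of copies
of the varieties `X i`, each `X i` occurring `n i` times (and of varieties all of whose cohomology is
algebraic). Suppose that the Tate conjecture and the semisimplicity of Frobenius (for the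
eigenvalues of Tate classes) hold, in all codimensions, for the products

  `X i₁ × ⋯ × X iₛ` with at most `N` factors, in which each `X j` occurs at most `n j` times.

Then they hold for `Z` in all codimensions, homological and numerical equivalence agree on `Z`, and
cycle classes which are linearly independent over the rational numbers are linearly independent over
the coefficient field.

The number `N` is explicit and uniform: if the dimensions of the `X i` are at most `d`, the sum
of all their Betti numbers is `b`, and all slopes of the Frobenius are in `(1 / m) ℤ`
(`HasSlopesIn`), one can take

  `N ≤ b * (2 * (4 * b * d * m + 1) ^ b)`.

Hence the bound does not depend on the finite field, on the characteristic or on the varieties, as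
soon as the numbers `b`, `d`, `m` are bounded. (For instance for the K3 surfaces we have `b = 24`,
`d = 2`, and the slopes are `1` and `1 ± 1 / h` with `h ≤ 10`: the Tate conjecture for
the powers of all K3 surfaces over all finite fields follows from the case of powers with an absolutely
bounded number of factors.) As `n j = 1` is allowed, the theorem can also be used for the
products of copies of some varieties with one more variety.

The proof: the cohomology of `Z` is spanned by products of pull-backs of generalised eigenvectors
of Frobenius, with eigenvalues `β x` of the single `X i` (for the indices `x` of a basis). Such a
product is a generalised Tate class over a finite extension if and only if the product of the `β x`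
is the right power of `q` up to a root of unity. By the theorem of Kronecker this is equivalent to
linear equations for the multiplicities of the `β x`: one equation `∑ k x * a g x = 0` for each
`g` in a Galois group, where `a g x` is the deviation of the slope of `g (β x)` from the
middle slope, multiplied with `2 * m`. These are at most `2 * m * d` in absolute value, and there
are at most `b` independent ones among them. If `k` is a solution and `K` its largest value, the
values of the equations at the vectors `⌊t * k x / K⌋` are bounded, for all `t ≤ K`; so by the
pigeonhole principle the difference of two of these vectors is a small solution `k' ≤ k`. Hence if
the number of factors of the product is greater than `N` then it is the product of two shorter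
ones of the same kind. So every Tate class is a sum of products of generalised Tate classes which are
pulled back from products of at most `N` factors.
-/

set_option autoImplicit false

open CategoryTheory AlgebraicGeometry

universe u v

namespace Pool.Agent.Results.MP_950c68_ag.BoundedProducts

open Pool.Agent.H914 Pool.Agent.W534 Pool.Agent.TH121.KT Pool.Agent.Y103.Hk
  Pool.Agent.V1141.FD VarClass Obj WeilCohomology

/-- **The Tate conjecture for all products of copies of given varieties follows from the case of
products with a bounded number of factors.** -/
theorem result {k : Type u} [Field k] {𝒱 : VarClass k} {ops : CycleOps 𝒱}
    (W : WeilCohomology.{u, v} ops) [IsAlgClosed W.K] (p : ℕ) [Fact p.Prime]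
    (Φ : FrobSystem W p) (r : ℕ) (X : Fin r → 𝒱.Obj) (hX : ∀ i, HasWeights Φ (X i)) :
    ∃ N : ℕ,
      (∀ m d : ℕ, 0 < m → (∀ i, HasSlopesIn Φ m (X i)) → (∀ i, (X i).dim ≤ d) →
        N ≤ enough (∑ i, Module.finrank W.K (W.H (X i))) d m) ∧
      ∀ (n : Fin r → ℕ) (Z : 𝒱.Obj), IsProductOfCopies W X n Z →
        (∀ (i : Fin r) (I : List (Fin r)), I.length + 1 ≤ N →
          (∀ j, (i :: I).count j ≤ n j) → ∀ c, SemisimpleTateIn Φ (prodList X i I) c) →
        (∀ c, SemisimpleTateIn Φ Z c) ∧ HomIsNum W Z ∧ InjectiveCycleMap W Z :=
  main_all X hX

end Pool.Agent.Results.MP_950c68_ag.BoundedProducts
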