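import Pool.Agent.V1161.Odd

/-!
# The Tate conjecture for Fermat varieties when the characteristic has odd order modulo the degree

Let `m` be prime to the odd prime `p` and let the order `f` of `p` modulo `m` be odd (for instance
`f = 1`: the characteristic is congruent to one modulo `m`). Let `X` be a Fermat variety of degree `m`
over a finite field of characteristic `p`, or a form of it (a diagonal hypersurface), or a product of
such varieties of the same degree `m`, with at most `N` variables altogether. The cohomology of `X` over
the algebraic closure is the sum of the classes of linear sections and of lines, and the lines on
which a power of Frobenius acts as a power of `p` are those of the Tate characters with at most `N`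
entries (Weil, Stickelberger).

The theorem: if the least common multiple of `2` and the part of `m` composed of the small primes is
good, then every Tate character of degree `m` with at most `N` entries becomes, after raising the
degree to a suitable multiple prime to `p`, a member of the closure of the Tate characters of surfaces,
the curve products and the standard characters of Aoki. Here the small primes are those below
`c * f * N + 2`, where `c` is `1`, `2`, `2`, `4` if the greatest common divisor of `m` and `6` is `1`,
`2`, `3`, `6`; for odd `m` the primes from `f * N + 2` to `19` are not counted as small. There is no
condition on the other primes dividing `m`.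

The lines of the Tate characters of surfaces of the degrees in question which occur are algebraic
since these surfaces are dominated by products of curves (Tate), those of the standard characters and
of the curve products are specialisations of algebraic lines in characteristic zero, see
`Pool.Agent.Results.MP_e12fcd_ag.FermatAllDimensions`.
-/

namespace Pool.Agent.Results.MP_950c68_ag.FermatOddOrder

open Pool.Agent.H916R2 Pool.Agent.H916T Pool.Agent.Y2.Cv Pool.Agent.V1161

/-- **The Tate conjecture for Fermat varieties, odd order.** -/
theorem result (p N m : ℕ) (hp : p.Prime) (hp2 : p ≠ 2) (hm : 0 < m) (hpm : p.Coprime m)
    (hf : Odd (orderOf (p : ZMod m)))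
    (hgood : GoodDegree2 (Nat.lcm 2 (smallPart (orderOf (p : ZMod m) * N) m)))
    (s : Multiset (ZMod m)) (hs : IsTate p m s) (hcard : Multiset.card s ≤ N) (hne : s ≠ 0) :
    ∃ K : ℕ, 0 < K ∧ p.Coprime K ∧ Pool.Agent.H916T.Generated (K * m) (PBase p (K * m))
      (s.map fun a => ((K * a.val : ℕ) : ZMod (K * m))) :=
  odd_order hp hp2 hm hpm hf hgood hs hcard hne

end Pool.Agent.Results.MP_950c68_ag.FermatOddOrder
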