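import Pool.Agent.V1157.PO.Main

/-!
# Tate's conjecture holds if orders of poles exceed ranks by a bounded amount only

Fix a finite field `k` with `q` elements, a prime `ℓ ≠ char k`, a dimension `n` and a codimension
`r`. `H` is the `ℓ`-adic cohomology of varieties over the algebraic closure of `k`, and the
distinguished classes (`T`) are the elements of the generalised eigenspaces of Frobenius on
`H^{2r}(X)` for the eigenvalue `q ^ r`. By Deligne's theorem, the dimension of this eigenspace is
the order of the pole of the zeta function `ζ(X, s)` at `s = r`. The following are equivalent:

1. for each variety `X` of dimension `n` the order of the pole is at most the rank of the group of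
  cycles of codimension `r` modulo numerical equivalence;
2. there is `D` such that on each variety of dimension `n` the order of the pole exceeds this rank
  by at most `D`;
3. for each `X` of dimension `n` the generalised eigenspace is spanned by the classes of cycles, and
  numerically trivial cycles of codimension `r` are homologically trivial.

The theorem holds, with the same proof, for each field `k`, each Weil cohomology of finite
dimension and each family `T` of distinguished classes which contains the classes of cycles.

Proof of 2 ⇒ 3: if `t` is a class on `S` which is not algebraic, or the non-zero class of a cycle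
which is numerically trivial, take a complete intersection `V` in `S^N`, `N = D + 1`; its `N`
projections `p_i` to `S` satisfy `p_i_* p_j^* = 0`, `i ≠ j`, modulo algebraic classes, respectively
on numerically trivial cycles. So the classes `p_i^* t` are independent of the classes of any family
of cycles which is independent modulo numerical equivalence.
-/

open CategoryTheory AlgebraicGeometry

universe u v w

namespace Pool.Agent.Results.MP_950c68_ag.PoleOrderBounded

open Pool.Agent.H914 Pool.Agent.H914.VarClass Pool.Agent.H914.VarClass.Obj Pool.Agent.W492.BB
  Pool.Agent.TH133 Pool.Agent.V1157.BD Pool.Agent.V1157.PO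

theorem result {k : Type u} [Field k] {𝒱 : VarClass k} {C : TheoryData.{u, v, 0} 𝒱 ℚ}
    [IsChowProj C] {K : Type w} [Field K] [CharZero K] {H : WeilTheoryData.{u, v, w} C K}
    [IsWeilProj H] (hfin : ∀ X : 𝒱.Obj, Module.Finite K (H.A X)) (T : ClassFamily H) (n r : ℕ)
    (hT : ∀ (X : 𝒱.Obj) (z : C.A X), C.Deg r z → T.Mem X r (H.cl z))
    (hP : ∀ (S : 𝒱.Obj) (N : ℕ), S.dim = n → HasPower C n N S) :
    List.TFAE [ExcessAtMost T n r 0, ∃ D, ExcessAtMost T n r D,
      TateConj T n r ∧ NumIsHom H n r] :=
  pole_main T hT hfin hP

end Pool.Agent.Results.MP_950c68_ag.PoleOrderBounded
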